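import Pool.Agent.TH785.DL.Bound

/-!
# `MP_63050e_lc`, Q1: `lim^n A^F = 0` for all `ω_n`-chains `F`, `n ≥ 2`, is consistent

Martin's axiom for `ℵ_ω` dense sets can be forced without collapsing cardinals, and it implies that
for every `n` there is an `ω_n`-chain and that all derived limits of degree at least two of the
inverse system `A` along every `ω_n`-chain vanish. So for every `n ≥ 2` it is not provable that
`lim^n A^F ≠ 0` for `ω_n`-chains `F`.

Definitions used in the statement.
* `IsChainOf γ f`: `f α` (`α < γ`) is a `γ`-chain: `f α <* f β` for `α < β < γ`.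
* `DownStar γ f`: the set `F*` of the functions `g` with `g ≤* f α` for some `α < γ`; as a subtype
  it is ordered coordinatewise.
* `sysA D`: the functor on the opposite of the partially ordered set `D` with value
  `A_g = ⨁ i, ℤ^(g i)` at `g` and with the coordinate projections as transition maps.
* the derived limit of degree `m` is the value of the `m`-th right derived functor of the limit
  functor on the category of inverse systems of abelian groups indexed by `F*`.
* `MartinAxiomCard κ` (in `Pool.Agent.W684.FM.Ambient`) is the usual form of Martin's axiom for at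
  most `κ` dense sets; `MartinFor X` is an equivalent form for `#X` dense sets and
  `MartinHolds P X` is its literal translation into the forcing language of
  `Pool.Agent.Helper669.Forcing`.
-/

set_option autoImplicit false

namespace Pool.Agent.Results.MP_63050e_lc.VanishingUnderMA

open CategoryTheory CategoryTheory.Limits Opposite Cardinal Ordinal
open Pool.Agent.TH785.DL Pool.Agent.W684 Pool.Agent.W684.FM Pool.Agent.Helper669.Forcing

/-- (1) For every set `X` of cardinality `ℵ_ω` there is a preordered set of forcing conditions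
which forces that all cardinals of the ground model are cardinals, that `ω₁` is preserved and that
Martin's axiom for `X`, that is for `ℵ_ω` dense sets, holds. (2) The forced form of Martin's axiom
is equivalent to the usual one. (3) If Martin's axiom for `ℵ_ω` dense sets holds, then for every
`n` there is an `ω_n`-chain of functions, and for every `ω_n`-chain `F` all derived limits
`lim^m A^F`, `m ≥ 2`, vanish; in particular `lim^n A^F = 0` for every `n ≥ 2` and every
`ω_n`-chain `F`. (4) More precisely, Martin's axiom for `κ` dense sets implies this for the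
`≤*`-downward closure of every family of at most `κ` functions. -/
theorem result :
    (∀ X : Type, #X = ℵ_ ω → ∃ (P : Type) (_ : Preorder P), Nonempty P ∧ ∀ p : P,
      p ∈ CardinalsPreserved.{0, 0} P ∧ p ∈ OmegaOnePreserved P ∧ p ∈ MartinHolds P X) ∧
    (∀ X : Type, #X = ℵ_ ω → (MartinFor X ↔ MartinAxiomCard (ℵ_ ω))) ∧
    (MartinAxiomCard (ℵ_ ω) → ∀ n : ℕ, (∃ f, IsChainOf (ω_ n) f) ∧
      ∀ f, IsChainOf (ω_ n) f → ∀ m : ℕ, 2 ≤ m →
        IsZero (((lim : ((DownStar (ω_ n) f)ᵒᵖ ⥤ AddCommGrpCat.{0}) ⥤
          AddCommGrpCat.{0}).rightDerived m).obj (sysA (DownStar (ω_ n) f)))) ∧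
    ∀ κ : Cardinal.{0}, ℵ₀ ≤ κ → MartinAxiomCard κ → ∀ γ : Ordinal.{0}, γ.card ≤ κ →
      (∃ f, IsChainOf γ f) ∧ ∀ (f : Ordinal.{0} → ℕ → ℕ) (m : ℕ), 2 ≤ m →
        IsZero (((lim : ((DownStar γ f)ᵒᵖ ⥤ AddCommGrpCat.{0}) ⥤
          AddCommGrpCat.{0}).rightDerived m).obj (sysA (DownStar γ f))) := by
  have hκ : ℵ₀ ≤ ℵ_ ω := aleph0_le_aleph _
  have hcard : ∀ n : ℕ, (ω_ (n : Ordinal.{0})).card ≤ ℵ_ ω := by
    intro n
    rw [card_omega]
    exact aleph_le_aleph.2 (nat_lt_omega0 n).le
  refine ⟨fun X hX => ?_, fun X hX => ?_, fun hMA n => ?_, fun κ hκ' hMA γ hγ => ?_⟩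
  · haveI : Infinite X := by rw [Cardinal.infinite_iff, hX]; exact hκ
    exact exists_forcing X
  · haveI : Infinite X := by rw [Cardinal.infinite_iff, hX]; exact hκ
    rw [← hX]
    exact martinFor_iff
  · exact ⟨exists_chain hMA hκ _ (hcard n), fun f _ m hm => vanish hMA hκ _ (hcard n) f m hm⟩
  · exact ⟨exists_chain hMA hκ' γ hγ, fun f m hm => vanish hMA hκ' γ hγ f m hm⟩

end Pool.Agent.Results.MP_63050e_lc.VanishingUnderMA
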